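import Pool.Agent.helper94.SCT.Spec

set_option autoImplicit false

namespace Pool.Agent.SCT

open Finset ArithmeticFunction MeasureTheory

theorem LOW_int {f : ℝ → ℝ} (hf : Sm f) (hf0 : ∀ u, 0 ≤ f u) {a b c : ℝ} (hab : a ≤ b) (hc : 0 < c)
    (h1 : ∀ u, a ≤ u → u ≤ b → f u = 1) :
    (Real.exp (c * b) - Real.exp (c * a)) / c ≤ ∫ v : ℝ, f v * Real.exp (c * v) := by
  have hi : Integrable (fun v : ℝ => f v * Real.exp (c * v)) := by
    apply Continuous.integrable_of_hasCompactSupport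
    · exact hf.cont.mul (by fun_prop)
    · exact hf.2.mul_right
  have h2 : ∫ v in Set.Icc a b, f v * Real.exp (c * v) ≤ ∫ v : ℝ, f v * Real.exp (c * v) :=
    setIntegral_le_integral hi (Filter.Eventually.of_forall fun v => mul_nonneg (hf0 v) (Real.exp_pos _).le)
  refine le_trans (le_of_eq ?_) h2
  have h3 : ∫ v in Set.Icc a b, f v * Real.exp (c * v) = ∫ v in Set.Icc a b, Real.exp (c * v) := by
    apply setIntegral_congr_fun measurableSet_Icc
    intro v hv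
    simp only [h1 v hv.1 hv.2, one_mul]
  rw [h3, integral_Icc_eq_integral_Ioc, ← intervalIntegral.integral_of_le hab,
    intervalIntegral.integral_comp_mul_left (fun v => Real.exp v) hc.ne', integral_exp, smul_eq_mul]
  field_simp

theorem LOW_w {w : ℝ → ℝ} (hw : Sm w) (hw0 : ∀ u, 0 ≤ w u) {κ₁ η : ℝ} (hk : 0 < κ₁) (hk1 : κ₁ ≤ 1 / 4)
    (hη : 0 < η) (h1 : ∀ u, -1 + κ₁ ≤ u → u ≤ 0 - κ₁ → w u = 1) :
    (1 - Real.exp (-η)) - 2 * κ₁ * η ≤ η * ∫ v : ℝ, w v * Real.exp (η * v) := by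
  have h2 := LOW_int hw hw0 (a := -1 + κ₁) (b := 0 - κ₁) (c := η) (by linarith) hη h1
  have h3 : η * ((Real.exp (η * (0 - κ₁)) - Real.exp (η * (-1 + κ₁))) / η) =
      Real.exp (η * (0 - κ₁)) - Real.exp (η * (-1 + κ₁)) := by field_simp
  have h4 : Real.exp (η * (0 - κ₁)) - Real.exp (η * (-1 + κ₁)) ≤ η * ∫ v : ℝ, w v * Real.exp (η * v) := by
    rw [← h3]
    exact mul_le_mul_of_nonneg_left h2 hη.le
  refine le_trans ?_ h4
  have h5 : 1 - κ₁ * η ≤ Real.exp (η * (0 - κ₁)) := by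
    have := Real.add_one_le_exp (η * (0 - κ₁))
    nlinarith
  have h6 : Real.exp (η * (-1 + κ₁)) ≤ Real.exp (-η) + κ₁ * η := by
    have h7 : Real.exp (-η) ≥ Real.exp (η * (-1 + κ₁)) * (1 - κ₁ * η) := by
      have h8 : Real.exp (-η) = Real.exp (η * (-1 + κ₁)) * Real.exp (-(κ₁ * η)) := by
        rw [← Real.exp_add]; congr 1; ring
      rw [h8]
      apply mul_le_mul_of_nonneg_left _ (Real.exp_pos _).le
      have := Real.add_one_le_exp (-(κ₁ * η))
      linarith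
    have h9 : Real.exp (η * (-1 + κ₁)) ≤ 1 := by
      rw [Real.exp_le_one_iff]
      nlinarith
    nlinarith [mul_pos hk hη]
  linarith

theorem LOW_phi {φ : ℝ → ℝ} (hφ : Sm φ) (hφ0 : ∀ u, 0 ≤ φ u) {κ₁ p q : ℝ} (hk : 0 < κ₁) (hk1 : κ₁ ≤ 1 / 96)
    (hp : 1 ≤ p) (hq : q ≤ 2) (hpq : Real.log p + κ₁ ≤ Real.log q - κ₁) (hpq' : p ≤ q)
    (h1 : ∀ u, Real.log p + κ₁ ≤ u → u ≤ Real.log q - κ₁ → φ u = 1) :
    (q ^ 3 - p ^ 3) / 3 - 24 * κ₁ ≤ ∫ u : ℝ, φ u * Real.exp (3 * u) := by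
  have hp0 : 0 < p := by linarith
  have hq0 : 0 < q := by linarith
  have h2 := LOW_int hφ hφ0 (c := 3) hpq (by norm_num) h1
  refine le_trans ?_ h2
  have e1 : Real.exp (3 * (Real.log q - κ₁)) = q ^ 3 * Real.exp (-(3 * κ₁)) := by
    rw [show 3 * (Real.log q - κ₁) = (3 : ℕ) * Real.log q + -(3 * κ₁) by push_cast; ring, Real.exp_add,
      Real.exp_nat_mul, Real.exp_log hq0]
  have e2 : Real.exp (3 * (Real.log p + κ₁)) = p ^ 3 * Real.exp (3 * κ₁) := by
    rw [show 3 * (Real.log p + κ₁) = (3 : ℕ) * Real.log p + 3 * κ₁ by push_cast; ring, Real.exp_add,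
      Real.exp_nat_mul, Real.exp_log hp0]
  have h3 : 1 - 3 * κ₁ ≤ Real.exp (-(3 * κ₁)) := by
    have := Real.add_one_le_exp (-(3 * κ₁))
    linarith
  have h4 : Real.exp (3 * κ₁) ≤ 1 + 6 * κ₁ := by
    have h5 : Real.exp (-(3 * κ₁)) * Real.exp (3 * κ₁) = 1 := by
      rw [← Real.exp_add]; simp
    have h6 := Real.exp_pos (3 * κ₁)
    have h7 : (1 - 3 * κ₁) * Real.exp (3 * κ₁) ≤ 1 :=
      (mul_le_mul_of_nonneg_right h3 h6.le).trans h5.le
    have h8 : Real.exp (3 * κ₁) ≤ 2 := by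
      by_contra hc
      push Not at hc
      nlinarith
    nlinarith
  have hq3 : q ^ 3 ≤ 8 := by
    have : q ^ 3 ≤ 2 ^ 3 := pow_le_pow_left₀ hq0.le hq 3
    linarith
  have hp3 : p ^ 3 ≤ 8 := by
    have : p ^ 3 ≤ 2 ^ 3 := pow_le_pow_left₀ hp0.le (hpq'.trans hq) 3
    linarith
  have hp3' : 0 < p ^ 3 := by positivity
  have hq3' : 0 < q ^ 3 := by positivity
  rw [e1, e2]
  have h9 : q ^ 3 * (1 - 3 * κ₁) ≤ q ^ 3 * Real.exp (-(3 * κ₁)) := mul_le_mul_of_nonneg_left h3 hq3'.le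
  have h10 : p ^ 3 * Real.exp (3 * κ₁) ≤ p ^ 3 * (1 + 6 * κ₁) := mul_le_mul_of_nonneg_left h4 hp3'.le
  have h11 : q ^ 3 * κ₁ ≤ 8 * κ₁ := mul_le_mul_of_nonneg_right hq3 hk.le
  have h12 : p ^ 3 * κ₁ ≤ 8 * κ₁ := mul_le_mul_of_nonneg_right hp3 hk.le
  rw [le_div_iff₀ (by norm_num)]
  linarith

theorem LOW_spn {φ g w : ℝ → ℝ} (hφ0 : ∀ u, 0 ≤ φ u) (hg : ∀ u, 0 ≤ g u ∧ g u ≤ 1)
    (hw : ∀ u, 0 ≤ w u ∧ w u ≤ 1) {p q : ℝ} (hp : 1 ≤ p) (hq : q ≤ 2) (hq0 : 0 < q)
    (hφs : ∀ u, φ u ≠ 0 → Real.log p < u ∧ u < Real.log q) (hws : ∀ u, w u ≠ 0 → -1 < u ∧ u < 0)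
    {x B : ℕ} (hx : 0 < x) (hB0 : 0 < B) (hB : B ≤ x ^ 2) {z η : ℝ}
    (hz : z = B / (8 * (x : ℝ) ^ 2 * q ^ 2)) (hz1 : z < 1) (hη : η = -Real.log (1 - z)) :
    Spn φ g w x η ≤ ∑ m ∈ Ioc x (2 * x), vonMangoldt m * φ (Real.log ((m : ℝ) / x)) *
      ∑ n ∈ Ico (8 * m ^ 2 - B) (8 * m ^ 2), vonMangoldt n := by
  have hx0 : (0 : ℝ) < x := by exact_mod_cast hx
  have hB0' : (0 : ℝ) < B := by exact_mod_cast hB0
  have hz0 : 0 < z := by rw [hz]; positivity
  have hη0 : 0 < η := by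
    rw [hη, neg_pos]
    exact Real.log_neg (by linarith) (by linarith)
  have hp0 : 0 < p := by linarith
  have hsupp : ∀ m : ℕ, φ (Real.log ((m : ℝ) / x)) ≠ 0 → 0 < m ∧ (x : ℝ) < m ∧ (m : ℝ) < q * x := by
    intro m hm
    obtain ⟨h1, h2⟩ := hφs _ hm
    have hm0 : 0 < m := by
      rcases Nat.eq_zero_or_pos m with h | h
      · subst h
        simp at h1
        exact absurd h1 (not_lt.2 (Real.log_nonneg hp))
      · exact h
    have hm0' : (0 : ℝ) < m := by exact_mod_cast hm0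
    have h3 : p < (m : ℝ) / x := by
      rwa [Real.log_lt_log_iff hp0 (by positivity)] at h1
    have h4 : (m : ℝ) / x < q := by
      rwa [Real.log_lt_log_iff (by positivity) hq0] at h2
    refine ⟨hm0, ?_, ?_⟩
    · rw [lt_div_iff₀ hx0] at h3
      nlinarith
    · rwa [div_lt_iff₀ hx0] at h4
  unfold Spn
  rw [tsum_eq_sum (s := Ioc x (2 * x))]
  · apply Finset.sum_le_sum
    intro m _
    by_cases hm : φ (Real.log ((m : ℝ) / x)) = 0
    · simp [hm]
    · obtain ⟨hm0, hmx, hmq⟩ := hsupp m hm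
      have hm0' : (0 : ℝ) < m := by exact_mod_cast hm0
      rw [tsum_eq_sum (s := Ico (8 * m ^ 2 - B) (8 * m ^ 2)), Finset.mul_sum]
      · apply Finset.sum_le_sum
        intro n _
        have h1 : 0 ≤ vonMangoldt m * vonMangoldt n * φ (Real.log ((m : ℝ) / x)) :=
          mul_nonneg (mul_nonneg vonMangoldt_nonneg vonMangoldt_nonneg) (hφ0 _)
        have h2 := hg (Real.log ((n : ℝ) / (x : ℝ) ^ 2))
        have h3 := hw ((Real.log n - Real.log (8 * (m : ℝ) ^ 2)) / η)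
        calc vonMangoldt m * vonMangoldt n * φ (Real.log ((m : ℝ) / x)) * g (Real.log ((n : ℝ) / (x : ℝ) ^ 2)) *
              w ((Real.log n - Real.log (8 * (m : ℝ) ^ 2)) / η)
            ≤ vonMangoldt m * vonMangoldt n * φ (Real.log ((m : ℝ) / x)) * 1 * 1 := by
              apply mul_le_mul _ h3.2 h3.1 (by linarith [h1])
              exact mul_le_mul_of_nonneg_left h2.2 h1
          _ = vonMangoldt m * φ (Real.log ((m : ℝ) / x)) * vonMangoldt n := by ring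
      · intro n hn
        rcases Nat.eq_zero_or_pos n with h0 | h0
        · subst h0; simp
        · have hn0 : (0 : ℝ) < n := by exact_mod_cast h0
          have hw0 : w ((Real.log n - Real.log (8 * (m : ℝ) ^ 2)) / η) = 0 := by
            by_contra hc
            obtain ⟨h1, h2⟩ := hws _ hc
            apply hn
            rw [div_lt_iff₀ hη0, zero_mul] at h2
            rw [lt_div_iff₀ hη0] at h1
            have h3 : Real.log n < Real.log (8 * (m : ℝ) ^ 2) := by linarith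
            rw [Real.log_lt_log_iff hn0 (by positivity)] at h3
            have h4 : Real.log (8 * (m : ℝ) ^ 2 * (1 - z)) < Real.log n := by
              rw [Real.log_mul (by positivity) (by linarith)]
              linarith
            rw [Real.log_lt_log_iff (by apply mul_pos; positivity; linarith) hn0] at h4
            have h5 : 8 * (m : ℝ) ^ 2 * z ≤ B := by
              rw [hz]
              have h6 : 8 * (m : ℝ) ^ 2 * (B / (8 * (x : ℝ) ^ 2 * q ^ 2)) = B * ((m : ℝ) ^ 2 / (q * x) ^ 2) := by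
                field_simp
              rw [h6]
              have h7 : (m : ℝ) ^ 2 / (q * x) ^ 2 ≤ 1 := by
                rw [div_le_one (by positivity)]
                exact pow_le_pow_left₀ hm0'.le hmq.le 2
              nlinarith
            rw [mem_Ico]
            constructor
            · have h8 : ((8 * m ^ 2 : ℕ) : ℝ) < ((n + B : ℕ) : ℝ) := by
                push_cast
                nlinarith
              have h9 : 8 * m ^ 2 < n + B := by exact_mod_cast h8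
              omega
            · exact_mod_cast h3
          rw [hw0, mul_zero]
  · intro m hm
    have hphi : φ (Real.log ((m : ℝ) / x)) = 0 := by
      by_contra hc
      obtain ⟨hm0, hmx, hmq⟩ := hsupp m hc
      apply hm
      rw [mem_Ioc]
      constructor
      · exact_mod_cast hmx
      · have : (m : ℝ) < 2 * x := by nlinarith
        have h2 : m < 2 * x := by exact_mod_cast this
        omega
    simp [hphi]

theorem LOW (hBMP : BMP_stmt) (hINT : INT_stmt) (hSZA : SZA_stmt) : LOW_stmt := by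
  intro ε κ hε hκ
  obtain ⟨J, hJ⟩ := exists_nat_gt (8 / κ)
  have hJ0' : (0 : ℝ) < J := lt_trans (by positivity) hJ
  have hJ0 : 0 < J := by exact_mod_cast hJ0'
  have hJ1 : (1 : ℝ) ≤ J := by exact_mod_cast hJ0
  have hJκ : 2 / (J : ℝ) ≤ κ / 4 := by
    rw [div_lt_iff₀ hκ] at hJ
    rw [div_le_iff₀ hJ0']
    nlinarith
  set κ₁ : ℝ := min κ 1 / (96 * J) with hκ₁
  have hk0 : 0 < κ₁ := by positivity
  have hk1 : κ₁ ≤ 1 / (96 * J) := by
    rw [hκ₁]
    gcongr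
    exact min_le_right _ _
  have hk1' : κ₁ * (96 * J) ≤ 1 := by
    rw [le_div_iff₀ (by positivity)] at hk1
    exact hk1
  have hk2 : κ₁ * (96 * J) ≤ κ := by
    rw [hκ₁, div_mul_cancel₀ _ (by positivity)]
    exact min_le_left _ _
  have hk3 : κ₁ ≤ 1 / 96 := by nlinarith
  have hk4 : κ₁ * 96 ≤ κ := by nlinarith
  set κ₂ : ℝ := κ / (2 * J) with hκ₂
  have hκ₂0 : 0 < κ₂ := by positivity
  -- weights
  obtain ⟨g, hg, hg01, hgs, hg1⟩ := hBMP 1 4 (1 / 20) (by norm_num) (by norm_num)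
  obtain ⟨w, hw, hw01, hws, hw1⟩ := hBMP (-1) 0 κ₁ hk0 (by linarith)
  have hq : ∀ j : ℕ, j < J → 1 ≤ 1 + (j : ℝ) / J ∧ 1 + ((j + 1 : ℕ) : ℝ) / J ≤ 2 := by
    intro j hj
    constructor
    · have : 0 ≤ (j : ℝ) / J := by positivity
      linarith
    · have : ((j + 1 : ℕ) : ℝ) / J ≤ 1 := by
        rw [div_le_one hJ0']
        exact_mod_cast hj
      linarith
  have hwid : ∀ j : ℕ, j < J → 2 * κ₁ < Real.log (1 + ((j + 1 : ℕ) : ℝ) / J) - Real.log (1 + (j : ℝ) / J) := by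
    intro j hj
    obtain ⟨h1, h2⟩ := hq j hj
    have hp0 : 0 < 1 + (j : ℝ) / J := by linarith
    have hq0 : 0 < 1 + ((j + 1 : ℕ) : ℝ) / J := by positivity
    rw [← Real.log_div hq0.ne' hp0.ne']
    have h3 := Real.one_sub_inv_le_log_of_pos (x := (1 + ((j + 1 : ℕ) : ℝ) / J) / (1 + (j : ℝ) / J)) (by positivity)
    refine lt_of_lt_of_le ?_ h3
    have h4 : 1 - ((1 + ((j + 1 : ℕ) : ℝ) / J) / (1 + (j : ℝ) / J))⁻¹ = 1 / (J * (1 + ((j + 1 : ℕ) : ℝ) / J)) := by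
      push_cast
      field_simp
      ring
    rw [h4]
    have h5 : 1 / ((J : ℝ) * 2) ≤ 1 / (J * (1 + ((j + 1 : ℕ) : ℝ) / J)) := by gcongr
    refine lt_of_lt_of_le ?_ h5
    rw [lt_div_iff₀ (by positivity)]
    nlinarith
  have hphi : ∀ j : ℕ, ∃ φ : ℝ → ℝ, j < J → (Sm φ ∧ (∀ u, 0 ≤ φ u ∧ φ u ≤ 1) ∧
      (∀ u, φ u ≠ 0 → Real.log (1 + (j : ℝ) / J) < u ∧ u < Real.log (1 + ((j + 1 : ℕ) : ℝ) / J)) ∧
      (∀ u, Real.log (1 + (j : ℝ) / J) + κ₁ ≤ u → u ≤ Real.log (1 + ((j + 1 : ℕ) : ℝ) / J) - κ₁ → φ u = 1)) := by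
    intro j
    by_cases hj : j < J
    · obtain ⟨φ, h⟩ := hBMP _ _ κ₁ hk0 (hwid j hj)
      exact ⟨φ, fun _ => h⟩
    · exact ⟨fun _ => 0, fun h => absurd h hj⟩
  choose φ hφ using hphi
  have hlog2 : Real.log 2 ≤ 4 / 5 := by
    have := Real.log_two_lt_d9
    linarith
  have hINT' : ∀ j : ℕ, ∃ x₀ : ℕ, j < J → ∀ x : ℕ, x₀ ≤ x → ∀ η : ℝ, (x : ℝ) ^ (-(4 / 3 : ℝ) + ε / 2) ≤ η → η ≤ 1 →
      |Spn (φ j) g w x η - S0 (φ j) g w x η| ≤ κ₂ * η * (x : ℝ) ^ 3 := by
    intro j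
    by_cases hj : j < J
    · obtain ⟨x₀, h⟩ := hINT (φ j) g w (hφ j hj).1 hg hw (fun u hu => ⟨(hgs u hu).1.le, (hgs u hu).2.le⟩) (ε / 2) κ₂
        (by positivity) hκ₂0
      exact ⟨x₀, fun _ => h⟩
    · exact ⟨0, fun h => absurd h hj⟩
  have hSZA' : ∀ j : ℕ, ∃ x₀ : ℕ, j < J → ∀ x : ℕ, x₀ ≤ x → ∀ η : ℝ, 0 < η → η ≤ 1 / 4 →
      |S0 (φ j) g w x η - 8 * (x : ℝ) ^ 3 * (η * ∫ v : ℝ, w v * Real.exp (η * v)) *
        ∫ u : ℝ, φ j u * Real.exp (3 * u)| ≤ κ₂ * η * (x : ℝ) ^ 3 := by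
    intro j
    by_cases hj : j < J
    · obtain ⟨x₀, h⟩ := hSZA (φ j) g w (hφ j hj).1 hg hw (by
        intro u hu
        obtain ⟨h1, h2⟩ := (hφ j hj).2.2.1 u hu
        obtain ⟨h3, h4⟩ := hq j hj
        constructor
        · have := Real.log_nonneg h3
          linarith
        · have h5 : Real.log (1 + ((j + 1 : ℕ) : ℝ) / J) ≤ Real.log 2 :=
            Real.log_le_log (by positivity) h4
          linarith) (by
        intro u hu
        obtain ⟨h1, h2⟩ := hws u hu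
        constructor <;> linarith) (by
        intro u h1 h2
        exact hg1 u (by linarith) (by linarith)) κ₂ hκ₂0
      exact ⟨x₀, fun _ => h⟩
    · exact ⟨0, fun h => absurd h hj⟩
  choose x1 hx1 using hINT'
  choose x2 hx2 using hSZA'
  obtain ⟨x3, hx3⟩ : ∃ x3 : ℕ, ∀ x : ℕ, x3 ≤ x → (32 : ℝ) ≤ (x : ℝ) ^ (ε / 2) := by
    have h1 : Filter.Tendsto (fun x : ℕ => (x : ℝ) ^ (ε / 2)) Filter.atTop Filter.atTop :=
      (tendsto_rpow_atTop (half_pos hε)).comp tendsto_natCast_atTop_atTop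
    obtain ⟨N, hN⟩ := Filter.eventually_atTop.1 (h1.eventually_ge_atTop 32)
    exact ⟨N, hN⟩
  refine ⟨∑ j ∈ range J, (x1 j + x2 j) + x3 + 1, fun x hx B hB1 hB2 => ?_⟩
  have hxx : ∀ j, j < J → x1 j ≤ x ∧ x2 j ≤ x := by
    intro j hj
    have h1 : x1 j + x2 j ≤ ∑ j ∈ range J, (x1 j + x2 j) :=
      Finset.single_le_sum (f := fun j => x1 j + x2 j) (fun _ _ => Nat.zero_le _) (mem_range.2 hj)
    constructor <;> omega
  have hx32 := hx3 x (by omega)
  have hxpos : 0 < x := by omega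
  have hx0 : (0 : ℝ) < x := by exact_mod_cast hxpos
  have hBpos' : (0 : ℝ) < B := lt_of_lt_of_le (by positivity) hB1
  have hBpos : 0 < B := by exact_mod_cast hBpos'
  have hB2' : (B : ℝ) ≤ (x : ℝ) ^ 2 := by exact_mod_cast hB2
  -- upper bound of the sum
  have hup : ∑ j ∈ range J, Spn (φ j) g w x (-Real.log (1 - B / (8 * (x : ℝ) ^ 2 * (1 + ((j + 1 : ℕ) : ℝ) / J) ^ 2))) ≤
      WT x B := by
    have h1 : ∀ j ∈ range J, Spn (φ j) g w x (-Real.log (1 - B / (8 * (x : ℝ) ^ 2 * (1 + ((j + 1 : ℕ) : ℝ) / J) ^ 2))) ≤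
        ∑ m ∈ Ioc x (2 * x), vonMangoldt m * φ j (Real.log ((m : ℝ) / x)) *
          ∑ n ∈ Ico (8 * m ^ 2 - B) (8 * m ^ 2), vonMangoldt n := by
      intro j hj
      have hj' := mem_range.1 hj
      obtain ⟨h3, h4⟩ := hq j hj'
      have h5 : (1 : ℝ) ≤ 1 + ((j + 1 : ℕ) : ℝ) / J := by
        have : 0 ≤ ((j + 1 : ℕ) : ℝ) / J := by positivity
        linarith
      apply LOW_spn (fun u => ((hφ j hj').2.1 u).1) hg01 hw01 h3 h4 (by linarith) (hφ j hj').2.2.1 hws hxpos hBpos hB2 rfl _ rfl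
      rw [div_lt_one (by positivity)]
      nlinarith [sq_nonneg (x : ℝ), pow_le_pow_left₀ zero_le_one h5 2]
    refine (Finset.sum_le_sum h1).trans ?_
    rw [Finset.sum_comm]
    unfold WT
    apply Finset.sum_le_sum
    intro m _
    have h6 : ∑ j ∈ range J, φ j (Real.log ((m : ℝ) / x)) ≤ 1 := by
      by_cases hex : ∃ i ∈ range J, φ i (Real.log ((m : ℝ) / x)) ≠ 0
      · obtain ⟨i, hi, hi0⟩ := hex
        rw [Finset.sum_eq_single i]
        · exact ((hφ i (mem_range.1 hi)).2.1 _).2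
        · intro j hj hji
          by_contra hc
          obtain ⟨h7, h8⟩ := (hφ i (mem_range.1 hi)).2.2.1 _ hi0
          obtain ⟨h9, h10⟩ := (hφ j (mem_range.1 hj)).2.2.1 _ hc
          rcases lt_or_gt_of_ne hji with h | h
          · have h11 : Real.log (1 + ((j + 1 : ℕ) : ℝ) / J) ≤ Real.log (1 + (i : ℝ) / J) := by
              apply Real.log_le_log (by positivity)
              have : ((j + 1 : ℕ) : ℝ) ≤ i := by exact_mod_cast h
              gcongr
            linarith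
          · have h11 : Real.log (1 + ((i + 1 : ℕ) : ℝ) / J) ≤ Real.log (1 + (j : ℝ) / J) := by
              apply Real.log_le_log (by positivity)
              have : ((i + 1 : ℕ) : ℝ) ≤ j := by exact_mod_cast h
              gcongr
            linarith
        · intro h; exact absurd hi h
      · push Not at hex
        rw [Finset.sum_eq_zero hex]
        exact zero_le_one
    have h7 : ∑ j ∈ range J, vonMangoldt m * φ j (Real.log ((m : ℝ) / x)) *
        ∑ n ∈ Ico (8 * m ^ 2 - B) (8 * m ^ 2), vonMangoldt n =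
        (vonMangoldt m * ∑ n ∈ Ico (8 * m ^ 2 - B) (8 * m ^ 2), vonMangoldt n) *
          ∑ j ∈ range J, φ j (Real.log ((m : ℝ) / x)) := by
      rw [Finset.mul_sum]
      apply Finset.sum_congr rfl
      intro j _
      ring
    rw [h7, ← Finset.mul_sum]
    have h8 : 0 ≤ vonMangoldt m * ∑ n ∈ Ico (8 * m ^ 2 - B) (8 * m ^ 2), vonMangoldt n :=
      mul_nonneg vonMangoldt_nonneg (Finset.sum_nonneg fun _ _ => vonMangoldt_nonneg)
    calc _ ≤ (vonMangoldt m * ∑ n ∈ Ico (8 * m ^ 2 - B) (8 * m ^ 2), vonMangoldt n) * 1 :=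
          mul_le_mul_of_nonneg_left h6 h8
      _ = _ := mul_one _
  refine le_trans ?_ hup
  -- lower bound of every term
  have hlow : ∀ j ∈ range J, (B * x : ℝ) * ((1 - κ / 4) / J - κ / 4 / J - κ / 4 / J - κ / 4 / J) ≤
      Spn (φ j) g w x (-Real.log (1 - B / (8 * (x : ℝ) ^ 2 * (1 + ((j + 1 : ℕ) : ℝ) / J) ^ 2))) := by
    intro j hj
    have hj' := mem_range.1 hj
    obtain ⟨h3, h4⟩ := hq j hj'
    set p : ℝ := 1 + (j : ℝ) / J with hp
    set q : ℝ := 1 + ((j + 1 : ℕ) : ℝ) / J with hqd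
    have hpq : q = p + 1 / J := by
      rw [hp, hqd]; push_cast; ring
    have hJi : 0 < 1 / (J : ℝ) := by positivity
    have hq1 : 1 ≤ q := by linarith
    have hp0 : 0 < p := by linarith
    have hq0 : 0 < q := by linarith
    have hq2 : (1 : ℝ) ≤ q ^ 2 := by nlinarith
    have hq4 : q ^ 2 ≤ 4 := by nlinarith
    set z : ℝ := B / (8 * (x : ℝ) ^ 2 * q ^ 2) with hz
    set η : ℝ := -Real.log (1 - z) with hη
    have hz0 : 0 < z := by positivity
    have hz8 : z ≤ 1 / 8 := by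
      rw [hz, div_le_div_iff₀ (by positivity) (by norm_num)]
      nlinarith [sq_nonneg (x : ℝ)]
    have hz1 : 0 < 1 - z := by linarith
    have hηz : z ≤ η := by
      have := Real.log_le_sub_one_of_pos hz1
      rw [hη]; linarith
    have hηz2 : η ≤ 2 * z := by
      have := Real.one_sub_inv_le_log_of_pos hz1
      have h5 : (1 - z)⁻¹ ≤ 1 + 2 * z := by
        rw [inv_le_iff_one_le_mul₀ hz1]
        nlinarith
      rw [hη]; linarith
    have hη0 : 0 < η := lt_of_lt_of_le hz0 hηz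
    have hηexp : 1 - Real.exp (-η) = z := by
      rw [hη, neg_neg, Real.exp_log hz1]; ring
    have hηlow : (x : ℝ) ^ (-(4 / 3 : ℝ) + ε / 2) ≤ η := by
      refine le_trans ?_ hηz
      rw [hz, le_div_iff₀ (by positivity)]
      have h6 : (x : ℝ) ^ (-(4 / 3 : ℝ) + ε / 2) * (8 * (x : ℝ) ^ 2 * q ^ 2) ≤
          (x : ℝ) ^ (-(4 / 3 : ℝ) + ε / 2) * (32 * (x : ℝ) ^ 2) := by
        apply mul_le_mul_of_nonneg_left _ (by positivity)
        nlinarith [sq_nonneg (x : ℝ)]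
      refine h6.trans ?_
      refine le_trans ?_ hB1
      have h7 : (x : ℝ) ^ (2 / 3 + ε) = (x : ℝ) ^ (-(4 / 3 : ℝ) + ε / 2) * ((x : ℝ) ^ (ε / 2) * (x : ℝ) ^ 2) := by
        rw [← Real.rpow_natCast x 2, ← Real.rpow_add hx0, ← Real.rpow_add hx0]
        congr 1
        push_cast
        ring
      rw [h7]
      gcongr
    have a1 := hx1 j hj' x (hxx j hj').1 η hηlow (by linarith)
    have a2 := hx2 j hj' x (hxx j hj').2 η hη0 (by linarith)
    have a3 := LOW_w hw (fun u => (hw01 u).1) hk0 (by linarith) hη0 hw1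
    have a4 := LOW_phi (hφ j hj').1 (fun u => ((hφ j hj').2.1 u).1) hk0 hk3 h3 h4 (by
      have := hwid j hj'
      linarith) (by linarith) (hφ j hj').2.2.2
    set W : ℝ := η * ∫ v : ℝ, w v * Real.exp (η * v) with hW
    set P : ℝ := ∫ u : ℝ, φ j u * Real.exp (3 * u) with hP
    have a5 : z * (1 - 4 * κ₁) ≤ W := by
      rw [hηexp] at a3
      nlinarith
    have a6 : p ^ 2 / J - 24 * κ₁ ≤ P := by
      refine le_trans ?_ a4
      have h8 : p ^ 2 / J ≤ (q ^ 3 - p ^ 3) / 3 := by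
        rw [hpq]
        have h9 : ((p + 1 / J) ^ 3 - p ^ 3) / 3 = p ^ 2 / J + p / (J : ℝ) ^ 2 + 1 / (3 * (J : ℝ) ^ 3) := by
          field_simp
          ring
        rw [h9]
        have : 0 ≤ p / (J : ℝ) ^ 2 := by positivity
        have : 0 ≤ 1 / (3 * (J : ℝ) ^ 3) := by positivity
        linarith
      linarith
    have a7 : 0 ≤ p ^ 2 / J - 24 * κ₁ := by
      have h8 : 1 / (J : ℝ) ≤ p ^ 2 / J := by
        gcongr
        nlinarith
      have h9 : 24 * κ₁ ≤ 1 / J := by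
        rw [le_div_iff₀ hJ0']
        nlinarith
      linarith
    have a8 : 0 ≤ z * (1 - 4 * κ₁) := mul_nonneg hz0.le (by linarith)
    have a9 : z * (1 - 4 * κ₁) * (p ^ 2 / J - 24 * κ₁) ≤ W * P :=
      mul_le_mul a5 a6 a7 (a8.trans a5)
    have b1 : 8 * (x : ℝ) ^ 3 * W * P - 2 * κ₂ * η * (x : ℝ) ^ 3 ≤ Spn (φ j) g w x η := by
      have c1 := (abs_le.1 a1).1
      have c2 := (abs_le.1 a2).1
      linarith
    refine le_trans ?_ b1
    have b2 : 8 * (x : ℝ) ^ 3 * z = B * x / q ^ 2 := by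
      rw [hz]; field_simp
    have b3 : 8 * (x : ℝ) ^ 3 * (z * (1 - 4 * κ₁) * (p ^ 2 / J - 24 * κ₁)) ≤ 8 * (x : ℝ) ^ 3 * W * P := by
      calc 8 * (x : ℝ) ^ 3 * (z * (1 - 4 * κ₁) * (p ^ 2 / J - 24 * κ₁)) ≤ 8 * (x : ℝ) ^ 3 * (W * P) :=
            mul_le_mul_of_nonneg_left a9 (by positivity)
        _ = _ := by ring
    have b4 : 2 * κ₂ * η * (x : ℝ) ^ 3 ≤ (B * x) * (κ / 4 / J) := by
      have c1 : 2 * κ₂ * η * (x : ℝ) ^ 3 ≤ 2 * κ₂ * (2 * z) * (x : ℝ) ^ 3 := by gcongr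
      refine c1.trans ?_
      have c2 : 2 * κ₂ * (2 * z) * (x : ℝ) ^ 3 = (κ₂ / 2) * (8 * (x : ℝ) ^ 3 * z) := by ring
      rw [c2, b2, hκ₂]
      have c3 : κ / (2 * J) / 2 * (B * x / q ^ 2) = (B * x) * (κ / 4 / J) * (1 / q ^ 2) := by
        field_simp
        ring
      rw [c3]
      have c4 : 1 / q ^ 2 ≤ 1 := by
        rw [div_le_one (by positivity)]; exact hq2
      have c5 : 0 ≤ (B * x : ℝ) * (κ / 4 / J) := by positivity
      calc _ ≤ (B * x : ℝ) * (κ / 4 / J) * 1 := mul_le_mul_of_nonneg_left c4 c5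
        _ = _ := mul_one _
    have b5 : (B * x : ℝ) * ((1 - κ / 4) / J - κ / 4 / J - κ / 4 / J) ≤
        8 * (x : ℝ) ^ 3 * (z * (1 - 4 * κ₁) * (p ^ 2 / J - 24 * κ₁)) := by
      have c1 : 8 * (x : ℝ) ^ 3 * (z * (1 - 4 * κ₁) * (p ^ 2 / J - 24 * κ₁)) =
          (B * x : ℝ) * ((1 - 4 * κ₁) * ((p ^ 2 / q ^ 2) / J - 24 * κ₁ / q ^ 2)) := by
        calc _ = (8 * (x : ℝ) ^ 3 * z) * ((1 - 4 * κ₁) * (p ^ 2 / J - 24 * κ₁)) := by ring
          _ = _ := by
            rw [b2]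
            field_simp
      rw [c1]
      apply mul_le_mul_of_nonneg_left _ (by positivity)
      have c2 : 1 - 2 / J ≤ p ^ 2 / q ^ 2 := by
        rw [le_div_iff₀ (by positivity), hpq]
        have c3 : (1 - 2 / (J : ℝ)) * (p + 1 / J) ^ 2 = p ^ 2 + 2 * p / J * (1 - p) + (1 - 4 * p) / (J : ℝ) ^ 2 - 2 / (J : ℝ) ^ 3 := by
          field_simp
          ring
        rw [c3]
        have c4 : 2 * p / J * (1 - p) ≤ 0 := mul_nonpos_of_nonneg_of_nonpos (by positivity) (by linarith)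
        have c5 : (1 - 4 * p) / (J : ℝ) ^ 2 ≤ 0 := div_nonpos_of_nonpos_of_nonneg (by linarith) (by positivity)
        have c6 : 0 ≤ 2 / (J : ℝ) ^ 3 := by positivity
        linarith
      have c7 : 24 * κ₁ / q ^ 2 ≤ κ / 4 / J := by
        have c8 : 24 * κ₁ / q ^ 2 ≤ 24 * κ₁ := div_le_self (by positivity) hq2
        refine c8.trans ?_
        rw [le_div_iff₀ hJ0']
        nlinarith
      have c9 : (1 - κ / 4) / J ≤ (p ^ 2 / q ^ 2) / J := by
        gcongr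
        linarith
      have c10 : 4 * κ₁ * (p ^ 2 / q ^ 2 / J - 24 * κ₁ / q ^ 2) ≤ κ / 4 / J := by
        have d1 : p ^ 2 / q ^ 2 ≤ 1 := by
          rw [div_le_one (by positivity)]
          exact pow_le_pow_left₀ hp0.le (by linarith) 2
        have d2 : p ^ 2 / q ^ 2 / J - 24 * κ₁ / q ^ 2 ≤ 1 / J := by
          have : 0 ≤ 24 * κ₁ / q ^ 2 := by positivity
          have : p ^ 2 / q ^ 2 / J ≤ 1 / J := by gcongr
          linarith
        calc 4 * κ₁ * (p ^ 2 / q ^ 2 / J - 24 * κ₁ / q ^ 2) ≤ 4 * κ₁ * (1 / J) :=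
              mul_le_mul_of_nonneg_left d2 (by positivity)
          _ ≤ (κ / 4) * (1 / J) := by
              apply mul_le_mul_of_nonneg_right _ (by positivity)
              linarith
          _ = κ / 4 / J := by ring
      linarith
    have b6 : (B * x : ℝ) * ((1 - κ / 4) / J - κ / 4 / J - κ / 4 / J - κ / 4 / J) =
        (B * x : ℝ) * ((1 - κ / 4) / J - κ / 4 / J - κ / 4 / J) - (B * x) * (κ / 4 / J) := by ring
    rw [b6]
    linarith
  refine le_trans (le_of_eq ?_) (Finset.sum_le_sum hlow)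
  rw [Finset.sum_const, card_range, nsmul_eq_mul]
  field_simp
  ring

end Pool.Agent.SCT
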