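import Pool.Agent.helper94.SCT.Spec

set_option autoImplicit false

namespace Pool.Agent.SCT

open Finset ArithmeticFunction MeasureTheory
open Pool.Agent.CH (nit)

theorem VPP_deriv {φ : ℝ → ℝ} (hφ : Sm φ) {x u : ℝ} (hx : 0 < x) (hu : 0 < u) :
    HasDerivAt (fun u : ℝ => ((φ (Real.log (u / x)) : ℝ) : ℂ))
      (((deriv φ (Real.log (u / x)) * u⁻¹ : ℝ)) : ℂ) u := by
  have h1 : HasDerivAt (fun u : ℝ => Real.log (u / x)) u⁻¹ u := by
    have h2 : HasDerivAt (fun u : ℝ => u / x) (1 / x) u := (hasDerivAt_id u).div_const x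
    have h3 := h2.log (by positivity)
    have h4 : 1 / x / (u / x) = u⁻¹ := by field_simp
    rwa [h4] at h3
  have h5 : HasDerivAt φ (deriv φ (Real.log (u / x))) (Real.log (u / x)) :=
    ((hφ.1.differentiable (by simp)) _).hasDerivAt
  exact (h5.comp u h1).ofReal_comp

theorem VPP_one (n : ℕ) : (1 : DirichletCharacter ℂ 1) n = 1 :=
  MulChar.one_apply (isUnit_of_subsingleton _)

theorem VPP_bound {φ : ℝ → ℝ} (hφ : Sm φ) {R : ℝ} (hR : ∀ u, φ u ≠ 0 → |u| ≤ R) (hR0 : 0 < R) {D : ℝ}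
    (hD : ∀ u, |deriv φ u| ≤ D) {x t W : ℝ} (hx : 0 < x) (ha : 1 ≤ x * Real.exp (-(R + 1)))
    (hW : ∀ u, x * Real.exp (-(R + 1)) ≤ u → u ≤ x * Real.exp (R + 1) →
      ‖∑ n ∈ Ioc 0 ⌊u⌋₊, (vonMangoldt n : ℂ) * nu t n‖ ≤ u * W) :
    ‖DL φ x t‖ ≤ D * W * (x * Real.exp (R + 1)) := by
  set a : ℝ := x * Real.exp (-(R + 1)) with ha_def
  set b : ℝ := x * Real.exp (R + 1) with hb_def
  have hD0 : 0 ≤ D := (abs_nonneg _).trans (hD 0)
  have hab : a ≤ b := by
    apply mul_le_mul_of_nonneg_left _ hx.le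
    apply Real.exp_le_exp.2
    linarith
  have ha0 : 0 < a := lt_of_lt_of_le one_pos ha
  have hb0 : 0 < b := ha0.trans_le hab
  have hloga : Real.log (a / x) = -(R + 1) := by
    rw [ha_def, mul_div_assoc, mul_comm, div_mul_cancel₀ _ hx.ne', Real.log_exp]
  have hlogb : Real.log (b / x) = R + 1 := by
    rw [hb_def, mul_div_assoc, mul_comm, div_mul_cancel₀ _ hx.ne', Real.log_exp]
  have hz : ∀ u, R < |u| → φ u = 0 := fun u hu => by
    by_contra h
    exact absurd (hR u h) (not_le.2 hu)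
  have h1 : DL φ x t = ∑ k ∈ Ioc ⌊a⌋₊ ⌊b⌋₊, ((φ (Real.log ((k : ℝ) / x)) : ℝ) : ℂ) * ((vonMangoldt k : ℂ) * nu t k) := by
    unfold DL
    rw [tsum_eq_sum (s := Ioc ⌊a⌋₊ ⌊b⌋₊)]
    · apply Finset.sum_congr rfl
      intro k _
      ring
    · intro n hn
      rcases Nat.eq_zero_or_pos n with h0 | h0
      · subst h0; simp
      · have hn0 : (0 : ℝ) < n := by exact_mod_cast h0
        have hphi : φ (Real.log ((n : ℝ) / x)) = 0 := by
          apply hz
          by_cases hna : n ≤ ⌊a⌋₊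
          · have h2 : (n : ℝ) ≤ a := (Nat.le_floor_iff ha0.le).1 hna
            have h3 : Real.log ((n : ℝ) / x) ≤ -(R + 1) := by
              rw [← hloga]
              exact Real.log_le_log (by positivity) (by gcongr)
            rw [lt_abs]; right; linarith
          · have h2 : ⌊b⌋₊ < n := by
              by_contra hc
              exact hn (mem_Ioc.2 ⟨not_le.1 hna, not_lt.1 hc⟩)
            have h3 : b < n := Nat.lt_of_floor_lt h2
            have h4 : R + 1 ≤ Real.log ((n : ℝ) / x) := by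
              rw [← hlogb]
              exact Real.log_le_log (by positivity) (by gcongr)
            rw [lt_abs]; left; linarith
        rw [hphi]; simp
  have hint : IntegrableOn (deriv (fun u : ℝ => ((φ (Real.log (u / x)) : ℝ) : ℂ))) (Set.Icc a b) := by
    have hc : ContinuousOn (fun u : ℝ => (((deriv φ (Real.log (u / x)) * u⁻¹ : ℝ)) : ℂ)) (Set.Icc a b) := by
      apply Complex.continuous_ofReal.comp_continuousOn
      have hdc : Continuous (deriv φ) := hφ.1.continuous_deriv (by simp)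
      apply ContinuousOn.mul
      · apply hdc.comp_continuousOn
        apply ContinuousOn.log
        · fun_prop
        · intro u hu
          have : 0 < u := ha0.trans_le hu.1
          positivity
      · apply continuousOn_inv₀.mono
        intro u hu
        exact (ha0.trans_le hu.1).ne'
    refine (hc.integrableOn_Icc).congr_fun ?_ measurableSet_Icc
    intro u hu
    exact (VPP_deriv hφ hx (ha0.trans_le hu.1)).deriv.symm
  have h2 := sum_mul_eq_sub_sub_integral_mul (fun k => (vonMangoldt k : ℂ) * nu t k)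
    (f := fun u : ℝ => ((φ (Real.log (u / x)) : ℝ) : ℂ)) (a := a) (b := b) ha0.le hab
    (fun u hu => (VPP_deriv hφ hx (ha0.trans_le hu.1)).differentiableAt) hint
  have hfa : ((φ (Real.log (a / x)) : ℝ) : ℂ) = 0 := by
    rw [hz]
    · simp
    · rw [hloga, abs_neg, abs_of_pos (by linarith)]; linarith
  have hfb : ((φ (Real.log (b / x)) : ℝ) : ℂ) = 0 := by
    rw [hz]
    · simp
    · rw [hlogb, abs_of_pos (by linarith)]; linarith
  rw [h1, h2, hfa, hfb, zero_mul, zero_mul, sub_zero, zero_sub, norm_neg]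
  have hW0 : 0 ≤ W := by
    have := (norm_nonneg _).trans (hW a le_rfl hab)
    by_contra hc
    push Not at hc
    nlinarith
  have h3 : ∀ u ∈ Set.Ioc a b, ‖deriv (fun u : ℝ => ((φ (Real.log (u / x)) : ℝ) : ℂ)) u *
      ∑ k ∈ Icc 0 ⌊u⌋₊, (vonMangoldt k : ℂ) * nu t k‖ ≤ D * W := by
    intro u hu
    have hu0 : 0 < u := ha0.trans hu.1
    rw [(VPP_deriv hφ hx hu0).deriv, norm_mul]
    have h4 : ∑ k ∈ Icc 0 ⌊u⌋₊, (vonMangoldt k : ℂ) * nu t k = ∑ k ∈ Ioc 0 ⌊u⌋₊, (vonMangoldt k : ℂ) * nu t k := by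
      rw [Finset.Icc_eq_cons_Ioc (Nat.zero_le _), Finset.sum_cons]
      simp
    rw [h4, Complex.norm_real, Real.norm_eq_abs, abs_mul, abs_of_pos (inv_pos.2 hu0)]
    calc |deriv φ (Real.log (u / x))| * u⁻¹ * ‖∑ k ∈ Ioc 0 ⌊u⌋₊, (vonMangoldt k : ℂ) * nu t k‖
        ≤ D * u⁻¹ * (u * W) := by
          gcongr
          · exact hD _
          · exact hW u hu.1.le hu.2
      _ = D * W := by field_simp
  refine (norm_setIntegral_le_of_norm_le_const (by simp) h3).trans ?_
  rw [Real.volume_real_Ioc_of_le hab]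
  apply mul_le_mul_of_nonneg_left _ (by positivity)
  linarith

theorem VPP (hVP : Pool.Agent.CH.VP_stmt) : VPP_stmt := by
  intro φ hφ A
  obtain ⟨R, hR0, hR, -⟩ := hφ.bound
  obtain ⟨D, hD⟩ : ∃ D, ∀ u, |deriv φ u| ≤ D := by
    obtain ⟨C, hC⟩ := (hφ.1.continuous_deriv (by simp)).bounded_above_of_compact_support hφ.2.deriv
    exact ⟨C, fun u => by simpa using hC u⟩
  have hD0 : 0 ≤ D := (abs_nonneg _).trans (hD 0)
  obtain ⟨B', x0', hV⟩ := hVP (A + 1) 0 3
  set M : ℝ := 3 * (R + 1) + 2 ^ B' + 2 ^ (A + 1) * (D * Real.exp (R + 1)) + 1 with hM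
  have hM1 : 3 * (R + 1) ≤ M := by
    have : (0 : ℝ) ≤ 2 ^ (A + 1) * (D * Real.exp (R + 1)) := by positivity
    have : (0 : ℝ) ≤ 2 ^ B' := by positivity
    linarith
  have hM2 : (2 : ℝ) ^ B' ≤ M := by
    have : (0 : ℝ) ≤ 2 ^ (A + 1) * (D * Real.exp (R + 1)) := by positivity
    linarith
  have hM3 : 2 ^ (A + 1) * (D * Real.exp (R + 1)) ≤ M := by
    have : (0 : ℝ) ≤ 2 ^ B' := by positivity
    linarith
  refine ⟨B' + 1, ⌈Real.exp M⌉₊ + ⌈x0' * Real.exp (R + 1)⌉₊, fun x hx t ht1 ht2 => ?_⟩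
  have hx1 : Real.exp M ≤ x := by
    refine (Nat.le_ceil _).trans ?_
    exact_mod_cast (Nat.le_add_right _ _).trans hx
  have hx2 : x0' * Real.exp (R + 1) ≤ x := by
    refine (Nat.le_ceil _).trans ?_
    exact_mod_cast (Nat.le_add_left _ _).trans hx
  have hx0 : (0 : ℝ) < x := (Real.exp_pos M).trans_le hx1
  have hL : M ≤ Real.log x := by
    rw [Real.le_log_iff_exp_le hx0]; exact hx1
  have hL1 : 3 * (R + 1) ≤ Real.log x := hM1.trans hL
  have hLpos : 0 < Real.log x := by linarith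
  have hla : Real.log ((x : ℝ) * Real.exp (-(R + 1))) = Real.log x - (R + 1) := by
    rw [Real.log_mul hx0.ne' (Real.exp_pos _).ne', Real.log_exp]; ring
  have hlb : Real.log ((x : ℝ) * Real.exp (R + 1)) = Real.log x + (R + 1) := by
    rw [Real.log_mul hx0.ne' (Real.exp_pos _).ne', Real.log_exp]
  have ha1 : 1 ≤ (x : ℝ) * Real.exp (-(R + 1)) := by
    rw [← Real.log_nonneg_iff (by positivity), hla]
    linarith
  have key : ∀ u, (x : ℝ) * Real.exp (-(R + 1)) ≤ u → u ≤ x * Real.exp (R + 1) →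
      ‖∑ n ∈ Ioc 0 ⌊u⌋₊, (vonMangoldt n : ℂ) * nu t n‖ ≤ u * (2 ^ (A + 1) / Real.log x ^ (A + 1)) := by
    intro u hu1 hu2
    have hu0 : 0 < u := by linarith
    have hlu1 : Real.log x - (R + 1) ≤ Real.log u := by
      rw [← hla]; exact Real.log_le_log (by linarith) hu1
    have hlu2 : Real.log u ≤ Real.log x + (R + 1) := by
      rw [← hlb]; exact Real.log_le_log hu0 hu2
    have hu3 : x0' ≤ u := by
      refine le_trans ?_ hu1
      rw [Real.exp_neg, ← div_eq_mul_inv, le_div_iff₀ (Real.exp_pos _)]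
      exact hx2
    have h5 : Real.log u ^ B' ≤ |(-t)| := by
      rw [abs_neg]
      refine le_trans ?_ ht1
      calc Real.log u ^ B' ≤ (2 * Real.log x) ^ B' := by
            apply pow_le_pow_left₀
            · linarith
            · linarith
        _ = 2 ^ B' * Real.log x ^ B' := by rw [mul_pow]
        _ ≤ Real.log x * Real.log x ^ B' := by
            gcongr
            exact hM2.trans hL
        _ = Real.log x ^ (B' + 1) := by ring
    have h6 : |(-t)| ≤ u ^ 3 := by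
      rw [abs_neg]
      refine ht2.trans ?_
      have h7 : (x : ℝ) ^ 2 ≤ ((x : ℝ) * Real.exp (-(R + 1))) ^ 3 := by
        have h8 : ((x : ℝ) * Real.exp (-(R + 1))) ^ 3 = x ^ 2 * (x * Real.exp (-(3 * (R + 1)))) := by
          rw [mul_pow, ← Real.exp_nat_mul]
          push_cast
          ring_nf
        rw [h8]
        have h9 : 1 ≤ (x : ℝ) * Real.exp (-(3 * (R + 1))) := by
          rw [Real.exp_neg, ← div_eq_mul_inv, one_le_div (Real.exp_pos _)]
          exact (Real.exp_le_exp.2 hM1).trans hx1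
        nlinarith [sq_nonneg (x : ℝ)]
      exact h7.trans (pow_le_pow_left₀ (by linarith) hu1 3)
    have h10 := (hV u hu3 1 le_rfl (by simp) 1 (-t) h5 h6).1
    have h11 : ∑ n ∈ Ioc 0 ⌊u⌋₊, (vonMangoldt n : ℂ) * nu t n =
        ∑ n ∈ Ioc 0 ⌊u⌋₊, (vonMangoldt n : ℂ) * (1 : DirichletCharacter ℂ 1) n * nit (-t) n := by
      apply Finset.sum_congr rfl
      intro n _
      rw [VPP_one, mul_one]
      rfl
    rw [h11]
    refine h10.trans ?_
    rw [div_eq_mul_inv]
    apply mul_le_mul_of_nonneg_left _ hu0.le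
    rw [inv_eq_one_div, div_le_div_iff₀ (pow_pos (by linarith) _) (pow_pos hLpos _), one_mul, ← mul_pow]
    apply pow_le_pow_left₀ hLpos.le
    linarith
  have h12 := VPP_bound hφ hR hR0 hD hx0 ha1 key
  refine h12.trans ?_
  have h13 : D * (2 ^ (A + 1) / Real.log x ^ (A + 1)) * ((x : ℝ) * Real.exp (R + 1)) =
      (x / Real.log x ^ A) * ((2 ^ (A + 1) * (D * Real.exp (R + 1))) / Real.log x) := by
    rw [pow_succ (Real.log x) A]
    field_simp
  rw [h13]
  have h14 : (2 ^ (A + 1) * (D * Real.exp (R + 1))) / Real.log x ≤ 1 := by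
    rw [div_le_one hLpos]
    exact hM3.trans hL
  have h15 : 0 ≤ (x : ℝ) / Real.log x ^ A := by positivity
  calc _ ≤ (x : ℝ) / Real.log x ^ A * 1 := mul_le_mul_of_nonneg_left h14 h15
    _ = _ := mul_one _

end Pool.Agent.SCT
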